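import Mathlib

set_option autoImplicit false

/-!
# The non-vanishing step in Stepanov's method for y^2 = f(x)
-/

namespace Pool.Agent.Helper26K9.ST

open Polynomial

theorem key {p : ℕ} [Fact p.Prime] (hp : p ≠ 2) {f : (ZMod p)[X]} (hf : Squarefree f)
    (hd : 1 ≤ f.natDegree) (h0 : f.eval 0 ≠ 0) {A : ℕ} (hA : f.natDegree + 2 * A ≤ p + 1)
    (a b U W : (ZMod p)[X]) (ha : a.degree < A) (hb : b.degree < A)
    (h : (a + X ^ p * U) + (b + X ^ p * W) * f ^ ((p - 1) / 2) = 0) : a = 0 ∧ b = 0 := by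
  have hpp : p.Prime := Fact.out
  have hodd : 2 * ((p - 1) / 2) + 1 = p := by
    rcases hpp.eq_two_or_odd with h2 | h2
    · exact absurd h2 hp
    · have := hpp.two_le
      omega
  by_cases hA0 : A = 0
  · subst hA0
    constructor
    · by_contra h1
      rw [degree_eq_natDegree h1] at ha
      have : a.natDegree < 0 := by exact_mod_cast ha
      omega
    · by_contra h1
      rw [degree_eq_natDegree h1] at hb
      have : b.natDegree < 0 := by exact_mod_cast hb
      omega
  have ha' : a.natDegree ≤ A - 1 := by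
    by_cases h1 : a = 0
    · rw [h1, natDegree_zero]
      exact Nat.zero_le _
    · rw [degree_eq_natDegree h1] at ha
      have : a.natDegree < A := by exact_mod_cast ha
      omega
  have hb' : b.natDegree ≤ A - 1 := by
    by_cases h1 : b = 0
    · rw [h1, natDegree_zero]
      exact Nat.zero_le _
    · rw [degree_eq_natDegree h1] at hb
      have : b.natDegree < A := by exact_mod_cast hb
      omega
  set c : ZMod p := f.eval 0 with hc
  set g := f ^ ((p - 1) / 2) with hg
  obtain ⟨E, hE⟩ : ∃ E : (ZMod p)[X], f ^ p = C c + X ^ p * E := by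
    refine ⟨expand (ZMod p) p f.divX, ?_⟩
    rw [← ZMod.expand_card]
    conv_lhs => rw [← X_mul_divX_add f]
    rw [map_add, map_mul, expand_X, expand_C, hc, ← coeff_zero_eq_eval_zero]
    ring
  have hfg : f * g ^ 2 = f ^ p := by
    have e1 : f ^ p = f ^ (2 * ((p - 1) / 2) + 1) := congrArg (fun n => f ^ n) hodd.symm
    rw [hg, e1, pow_succ (f ^ ((p - 1) / 2)) 1, pow_one, ← pow_add, mul_comm f, ← pow_succ, two_mul]
  have h1 : f * (a + X ^ p * U) ^ 2 = (C c + X ^ p * E) * (b + X ^ p * W) ^ 2 := by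
    have : a + X ^ p * U = -((b + X ^ p * W) * g) := eq_neg_of_add_eq_zero_left h
    rw [this, ← hE, ← hfg]
    ring
  have h2 : X ^ p ∣ f * a ^ 2 - C c * b ^ 2 := by
    refine ⟨-(f * (2 * a * U + X ^ p * U ^ 2)) + (C c * (2 * b * W + X ^ p * W ^ 2) +
      E * (b + X ^ p * W) ^ 2), ?_⟩
    linear_combination h1
  have h3 : f * a ^ 2 - C c * b ^ 2 = 0 := by
    apply eq_zero_of_dvd_of_natDegree_lt h2
    rw [natDegree_X_pow]
    have e1 : (f * a ^ 2).natDegree ≤ f.natDegree + 2 * (A - 1) := by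
      refine natDegree_mul_le.trans (Nat.add_le_add_left (natDegree_pow_le.trans ?_) _)
      exact Nat.mul_le_mul_left _ ha'
    have e2 : (C c * b ^ 2).natDegree ≤ 2 * (A - 1) := by
      refine (natDegree_C_mul_le _ _).trans (natDegree_pow_le.trans ?_)
      exact Nat.mul_le_mul_left _ hb'
    have e3 := natDegree_sub_le (f * a ^ 2) (C c * b ^ 2)
    have : max (f * a ^ 2).natDegree (C c * b ^ 2).natDegree ≤ f.natDegree + 2 * (A - 1) :=
      max_le e1 (e2.trans (Nat.le_add_left _ _))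
    omega
  have h4 : f * a ^ 2 = C c * b ^ 2 := sub_eq_zero.mp h3
  have hcu : IsUnit (C c : (ZMod p)[X]) := isUnit_C.mpr (Ne.isUnit h0)
  by_cases ha0 : a = 0
  · refine ⟨ha0, ?_⟩
    rw [ha0] at h4
    have : C c * b ^ 2 = 0 := by rw [← h4]; ring
    rcases mul_eq_zero.mp this with h5 | h5
    · exact absurd h5 hcu.ne_zero
    · exact pow_eq_zero_iff (two_ne_zero) |>.mp h5
  · exfalso
    have h5 : a ^ 2 ∣ C c * b ^ 2 := ⟨f, by rw [← h4]; ring⟩
    have h6 : a ^ 2 ∣ b ^ 2 := (hcu.dvd_mul_left).mp h5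
    have h7 : a ∣ b := (UniqueFactorizationMonoid.pow_dvd_pow_iff_dvd two_ne_zero).mp h6
    obtain ⟨t, rfl⟩ := h7
    have h8 : f = C c * t ^ 2 := by
      have : a ^ 2 * f = a ^ 2 * (C c * t ^ 2) := by
        rw [mul_comm (a ^ 2) f, h4]
        ring
      exact mul_left_cancel₀ (pow_ne_zero 2 ha0) this
    have h9 : IsUnit t := hf t ⟨C c, by rw [h8]; ring⟩
    have h10 : IsUnit f := by
      rw [h8]
      exact hcu.mul (h9.pow 2)
    have h11 : f.natDegree = 0 := natDegree_eq_zero_of_isUnit h10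
    omega

theorem S1 {p : ℕ} [Fact p.Prime] (hp : p ≠ 2) {f : (ZMod p)[X]} (hf : Squarefree f)
    (hd : 1 ≤ f.natDegree) (h0 : f.eval 0 ≠ 0) {J A : ℕ} (hA : f.natDegree + 2 * A ≤ p + 1)
    (r s : ℕ → (ZMod p)[X]) (hr : ∀ j, (r j).degree < A) (hs : ∀ j, (s j).degree < A)
    (hR : ∑ j ∈ Finset.range J, (r j + s j * f ^ ((p - 1) / 2)) * X ^ (j * p) = 0) :
    ∀ j < J, r j = 0 ∧ s j = 0 := by
  intro j
  induction j using Nat.strong_induction_on with
  | _ j ih =>
    intro hj
    obtain ⟨m, rfl⟩ : ∃ m, J = j + (m + 1) := ⟨J - j - 1, by omega⟩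
    rw [Finset.sum_range_add] at hR
    have hz : ∑ x ∈ Finset.range j, (r x + s x * f ^ ((p - 1) / 2)) * X ^ (x * p) = 0 := by
      apply Finset.sum_eq_zero
      intro x hx
      have hx' := Finset.mem_range.mp hx
      obtain ⟨h1, h2⟩ := ih x hx' (by omega)
      rw [h1, h2]
      ring
    rw [hz, zero_add] at hR
    have h1 : X ^ (j * p) * ∑ x ∈ Finset.range (m + 1),
        (r (j + x) + s (j + x) * f ^ ((p - 1) / 2)) * X ^ (x * p) = 0 := by
      rw [← hR, Finset.mul_sum]
      apply Finset.sum_congr rfl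
      intro x hx
      rw [add_mul j x p, pow_add]
      ring
    have h2 := (mul_eq_zero.mp h1).resolve_left (pow_ne_zero _ X_ne_zero)
    rw [Finset.sum_range_succ'] at h2
    refine key hp hf hd h0 hA (r j) (s j)
      (∑ x ∈ Finset.range m, r (j + (x + 1)) * X ^ (x * p))
      (∑ x ∈ Finset.range m, s (j + (x + 1)) * X ^ (x * p)) (hr j) (hs j) ?_
    rw [← h2, Finset.mul_sum, Finset.mul_sum, add_zero, zero_mul, pow_zero, mul_one, add_mul,
      Finset.sum_mul]
    have : ∀ x ∈ Finset.range m, (r (j + (x + 1)) + s (j + (x + 1)) * f ^ ((p - 1) / 2)) *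
        X ^ ((x + 1) * p) = X ^ p * (r (j + (x + 1)) * X ^ (x * p)) +
          X ^ p * (s (j + (x + 1)) * X ^ (x * p)) * f ^ ((p - 1) / 2) := by
      intro x hx
      rw [add_mul x 1 p, one_mul, pow_add]
      ring
    rw [Finset.sum_congr rfl this, Finset.sum_add_distrib]
    ring

end Pool.Agent.Helper26K9.ST
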